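import Pool.Agent.H36.CDisc

open Pool.Agent.H38.NP Pool.Agent.H36.CDisc

theorem Pool.Agent.Results.MP_e16607_lc.CoHard.result :
    ∀ L, (L = lang (fun p : ℕ × List (ℕ × ℕ) × ℕ => PhiLE (graphOf p.1 p.2.1) p.2.2) ∨
      L = lang (fun p : ℕ × List (ℕ × ℕ) × ℕ => PhiHatLE (graphOf p.1 p.2.1) p.2.2)) →
      CoNPHard L ∧ (InNP L → ∀ A, InNP A ↔ InCoNP A) := by
  intro L hL
  have h : CoNPHard L := by
    rcases hL with rfl | rfl
    · exact hard _ (fun _ h => h) fun _ ⟨c, h⟩ => ⟨c, fun S _ => h S⟩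
    · exact hard _ (fun _ ⟨c, h⟩ => ⟨c, fun S _ => h S⟩) fun _ h => h
  refine ⟨h, fun hN A => ⟨fun hA => ?_, fun hA => inNP_of_reduces (h A hA) hN⟩⟩
  exact inNP_of_reduces (h Aᶜ (by rwa [InCoNP, compl_compl])) hN
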